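import Mathlib
import Pool.Agent.H.MP_576b63_co.A

set_option autoImplicit false

namespace Pool.Agent.Results.MP_576b63_co.Q1Positive

theorem result : ∃ f : ℕ+ → ℕ+, Function.Bijective f ∧
    ∀ i j k l : ℕ+, i < j → j < k → k < l →
      ¬ (((f j : ℕ) : ℤ) - ((f i : ℕ) : ℤ) = ((f k : ℕ) : ℤ) - ((f j : ℕ) : ℤ) ∧
         ((f k : ℕ) : ℤ) - ((f j : ℕ) : ℤ) = ((f l : ℕ) : ℤ) - ((f k : ℕ) : ℤ)) :=
  Pool.Agent.H.MP_576b63_co.main

end Pool.Agent.Results.MP_576b63_co.Q1Positive
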